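import Pool.Agent.EngelMc.Bdd3

set_option autoImplicit false

universe u

namespace Pool.Agent.Results.MP_3f2ebd_al.BoundedRightEngelMc

open Subgroup Pool.Agent.EngelMc

/-- `comm x a` is the commutator `[a, x] = a⁻¹ x⁻¹ a x`. -/
def comm {G : Type u} [Group G] (x a : G) : G := a⁻¹ * x⁻¹ * a * x

/-- `G` is an `𝔐_c`-group: every subset `X` contains a finite subset `X₀` with the same
centralizer. -/
def IsMc (G : Type u) [Group G] : Prop :=
  ∀ X : Set G, ∃ X₀ : Set G, X₀ ⊆ X ∧ X₀.Finite ∧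
    Subgroup.centralizer X = Subgroup.centralizer X₀

/-- `R_n(G)`: the set of right `n`-Engel elements, i.e. of the `a` such that `[a, x, …, x] = 1`
(`n` times) for every `x`. -/
def RightEngel (G : Type u) [Group G] (n : ℕ) : Set G := {a | ∀ x : G, (comm x)^[n] a = 1}

/-- The set of bounded right Engel elements, the union of the sets `R_n(G)`. -/
def BoundedRightEngel (G : Type u) [Group G] : Set G := ⋃ n : ℕ, RightEngel G n

/-- `H` is subnormal of defect at most `n` in `K`: there is a chain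
`H = f 0 ⊴ f 1 ⊴ … ⊴ f n = K` with each term normal in the next one. -/
def IsSubnormal {G : Type u} [Group G] (H K : Subgroup G) (n : ℕ) : Prop :=
  ∃ f : ℕ → Subgroup G, f 0 = H ∧ f n = K ∧
    ∀ i < n, f i ≤ f (i + 1) ∧ ((f i).subgroupOf (f (i + 1))).Normal

/-- The set of the `a` for which there is `n ≥ 1` such that for every `x`, the cyclic subgroup
`⟨x⟩` is subnormal of defect at most `n` in `⟨x⟩⟨a⟩^G`, where `⟨a⟩^G` is the normal closure. -/
def boundedRho (G : Type u) [Group G] : Set G :=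
  {a | ∃ n : ℕ, 1 ≤ n ∧
    ∀ x : G, IsSubnormal (zpowers x) (zpowers x ⊔ normalClosure {a}) n}

variable {G : Type u} [Group G]

theorem mc_of_isMc (h : IsMc G) : MC G := by
  intro c hc
  obtain ⟨X₀, hX₀, hfin, hcen⟩ := h (⋃ n, c n)
  have h1 : ∀ s : Set G, s.Finite → s ⊆ ⋃ n, c n → ∃ N, centralizer (c N) ≤ centralizer s := by
    intro s hs
    induction s, hs using Set.Finite.induction_on with
    | empty =>
      intro _
      refine ⟨0, fun g _ => ?_⟩
      rw [mem_centralizer_iff]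
      simp
    | @insert a s _ _ ih =>
      intro hsub
      obtain ⟨N, hN⟩ := ih ((Set.subset_insert _ _).trans hsub)
      obtain ⟨M, hM⟩ := Set.mem_iUnion.1 (hsub (Set.mem_insert a s))
      refine ⟨max N M, fun g hg => ?_⟩
      rw [mem_centralizer_iff]
      rintro b (rfl | hb)
      · exact mem_centralizer_iff.1 (hc (le_max_right N M) hg) b hM
      · exact mem_centralizer_iff.1 (hN (hc (le_max_left N M) hg)) b hb
  obtain ⟨N, hN⟩ := h1 X₀ hfin hX₀
  refine ⟨N, fun n hn => le_antisymm (hc hn) ?_⟩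
  refine hN.trans ?_
  rw [← hcen]
  exact centralizer_le (Set.subset_iUnion c n)

theorem subnormal_iff {H K : Subgroup G} {n : ℕ} : IsSubnormal H K n ↔ Chain H K n := by
  constructor
  · rintro ⟨f, h0, hn, hs⟩
    exact ⟨f, h0, hn, fun i hi => ⟨(hs i hi).1,
      (normal_subgroupOf_iff_le_normalizer (hs i hi).1).1 (hs i hi).2⟩⟩
  · rintro ⟨f, h0, hn, hs⟩
    exact ⟨f, h0, hn, fun i hi => ⟨(hs i hi).1,
      (normal_subgroupOf_iff_le_normalizer (hs i hi).1).2 (hs i hi).2⟩⟩

theorem rightEngel_conj {a : G} {n : ℕ} (ha : a ∈ RightEngel G n) (g : G) :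
    g * a * g⁻¹ ∈ RightEngel G n := by
  intro x
  have h1 := D_iter_conj' g (g⁻¹ * x * g) a n
  have h2 : g * (g⁻¹ * x * g) * g⁻¹ = x := by group
  rw [h2] at h1
  have h3 : (D (g⁻¹ * x * g))^[n] a = 1 := ha (g⁻¹ * x * g)
  rw [h3] at h1
  have h4 : (D x)^[n] (g * a * g⁻¹) = 1 := by rw [h1]; group
  exact h4

/-- the inverse of a right `n`-Engel element is left `(n + 2)`-Engel -/
theorem leftEngel {b : G} {n : ℕ} (hb : b ∈ RightEngel G n) (u : G) :
    (D b⁻¹)^[n + 2] u = 1 := by
  have hw : u⁻¹ * b * u ∈ RightEngel G n := by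
    have := rightEngel_conj hb u⁻¹
    rwa [inv_inv] at this
  have hn' : (D b⁻¹)^[n] (u⁻¹ * b * u) = 1 := hw b⁻¹
  have h1 : D b⁻¹ u = (u⁻¹ * b * u) * b⁻¹ := by simp only [D]; group
  have h2 : ∀ w : G, D b⁻¹ (w * b⁻¹) = b * D b⁻¹ w * b⁻¹ := by
    intro w
    simp only [D]; group
  have h3 : ∀ (k : ℕ) (z : G), (D b⁻¹)^[k] (b * z * b⁻¹) = b * (D b⁻¹)^[k] z * b⁻¹ := by
    intro k z
    have := D_iter_conj' b b⁻¹ z k
    have h4 : b * b⁻¹ * b⁻¹ = b⁻¹ := by group
    rwa [h4] at this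
  have h5 : (D b⁻¹)^[n + 2] u = b * (D b⁻¹)^[n + 1] (u⁻¹ * b * u) * b⁻¹ := by
    rw [Function.iterate_succ_apply, h1, Function.iterate_succ_apply, h2, h3,
      ← Function.iterate_succ_apply]
  rw [h5, D_iter_stable hn' (Nat.le_succ n)]
  group

theorem rho_subset {a : G} (ha : a ∈ boundedRho G) : a ∈ BoundedRightEngel G := by
  obtain ⟨n, _, ha⟩ := ha
  refine Set.mem_iUnion.2 ⟨n + 1, fun x => ?_⟩
  obtain ⟨f, h0, hn, hs⟩ := subnormal_iff.1 (ha x)
  have hx : ∀ i ≤ n, x ∈ f i := by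
    intro i
    induction i with
    | zero => intro _; rw [h0]; exact mem_zpowers x
    | succ i ih => intro hi; exact (hs i hi).1 (ih (by omega))
  have key : ∀ i ≤ n, ∀ b ∈ f i, (D x)^[i + 1] b = 1 := by
    intro i
    induction i with
    | zero =>
      intro _ b hb
      rw [h0, mem_zpowers_iff] at hb
      obtain ⟨k, rfl⟩ := hb
      rw [zero_add, Function.iterate_one]
      simp only [D]
      group
    | succ i ih =>
      intro hi b hb
      rw [Function.iterate_succ_apply]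
      refine ih (by omega) _ ?_
      rw [D_eq']
      exact mul_mem (inv_mem (norm_conj' ((hs i hi).2 hb) (hx i (by omega)))) (hx i (by omega))
  have haα : a ∈ f n := by
    rw [hn]
    exact (le_sup_right : normalClosure {a} ≤ _) (subset_normalClosure (Set.mem_singleton a))
  exact key n le_rfl a haα

theorem subset_rho (h : IsMc G) {a : G} (ha : a ∈ BoundedRightEngel G) : a ∈ boundedRho G := by
  have hmc := mc_of_isMc h
  obtain ⟨n, ha⟩ := Set.mem_iUnion.1 ha
  set Y : Set G := Group.conjugatesOfSet {a} with hY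
  have hYmem : ∀ t ∈ Y, ∃ g : G, t = g * a * g⁻¹ := by
    intro t ht
    rw [hY, Group.mem_conjugatesOfSet_iff] at ht
    obtain ⟨b, hb, hbt⟩ := ht
    rw [Set.mem_singleton_iff] at hb
    rw [hb, isConj_iff] at hbt
    obtain ⟨g, hg⟩ := hbt
    exact ⟨g, hg.symm⟩
  have hmemY : ∀ g : G, g * a * g⁻¹ ∈ Y := by
    intro g
    rw [hY, Group.mem_conjugatesOfSet_iff]
    exact ⟨a, Set.mem_singleton a, isConj_iff.2 ⟨g, rfl⟩⟩
  set X : Set G := Set.range (fun g : G => g * a⁻¹ * g⁻¹) with hX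
  have hXE : ∀ y ∈ X, ∀ u : G, (D y)^[n + 2] u = 1 := by
    rintro _ ⟨k, rfl⟩ u
    have hn := leftEngel (rightEngel_conj ha k) u
    have h1 : (k * a * k⁻¹)⁻¹ = k * a⁻¹ * k⁻¹ := by group
    rwa [h1] at hn
  have hXLN : LN (closure X) := by
    refine main hmc ?_ ?_
    · rintro g _ ⟨k, rfl⟩
      exact ⟨g * k, by simp only []; group⟩
    · intro u _ y hy
      exact ⟨n + 2, hXE y hy u⟩
  have hXY : closure X = closure Y := by
    refine le_antisymm ?_ ?_
    · rw [closure_le]
      rintro _ ⟨g, rfl⟩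
      have h1 : g * a⁻¹ * g⁻¹ = (g * a * g⁻¹)⁻¹ := by group
      change g * a⁻¹ * g⁻¹ ∈ closure Y
      rw [h1]
      exact inv_mem (subset_closure (hmemY g))
    · rw [closure_le]
      intro t ht
      obtain ⟨g, rfl⟩ := hYmem t ht
      have h1 : g * a * g⁻¹ = (g * a⁻¹ * g⁻¹)⁻¹ := by group
      rw [h1]
      exact inv_mem (subset_closure ⟨g, rfl⟩)
  have hnil : Nil (closure X) := nil_main hmc hXLN rfl hXE
  rw [hXY] at hnil
  obtain ⟨c, hc⟩ := hnil
  have hAeq : normalClosure {a} = closure Y := rfl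
  refine ⟨1 + ∑ i ∈ Finset.range c, (i + 1) * n, Nat.le_add_right _ _, fun x => ?_⟩
  rw [subnormal_iff, hAeq]
  have hnorm : x ∈ normalizer (closure Y : Set G) := by
    rw [← hAeq, normalizer_eq_top]
    exact mem_top x
  refine (Chain.one _).trans (chain_main hnorm hc ?_)
  intro t ht
  obtain ⟨g, rfl⟩ := hYmem t ht
  exact rightEngel_conj ha g x

/-- In every `𝔐_c`-group the set of bounded right Engel elements coincides with
`boundedRho G`. -/
theorem result (G : Type u) [Group G] (h : IsMc G) : BoundedRightEngel G = boundedRho G :=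
  Set.Subset.antisymm (fun _ ha => subset_rho h ha) (fun _ ha => rho_subset ha)

end Pool.Agent.Results.MP_3f2ebd_al.BoundedRightEngelMc
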